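import Pool.Agent.H832.Tor.T7

set_option autoImplicit false

/-!
# Groups with `2` generators and `m + 4` relators and undecidable word problem

For every Thue system `T` with `m ≥ 1` relations between non-empty words in two letters, and for
every word `w0`, there are `m + 4` relators in two generators such that the problem whether a
word `r` is equal to `w0` in the semigroup is many-one reducible to the word problem of the group
with these generators and relators.
-/

namespace Pool.Agent.Results.MP_f66739_al.FewRelators

open Pool.Agent.H832.Few Pool.Agent.H832.Tor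

theorem result (m : ℕ) (hm : 1 ≤ m) (T : Fin m → List Bool × List Bool)
    (hT : ∀ i, (T i).1 ≠ [] ∧ (T i).2 ≠ []) (w0 : List Bool) :
    ∃ rels : Fin (m + 4) → FreeGroup (Fin 2),
      (fun r : List Bool => ThueEq T r w0) ≤₀
        (fun w : List (Fin 2 × Bool) =>
          FreeGroup.mk w ∈ Subgroup.normalClosure (Set.range rels)) := by
  obtain ⟨f, hf, h⟩ := exists_tw7List
  refine ⟨relsT7 T w0, f, hf, fun r => ?_⟩
  show ThueEq T r w0 ↔ FreeGroup.mk (f r) ∈ _
  rw [h, wp7_iff hm T hT w0 r]

end Pool.Agent.Results.MP_f66739_al.FewRelators
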